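import Pool.Agent.Work.MP_bd4052_lc_helper30.Lines

/-!
# MP_bd4052_lc: blocks CHO and CRE
-/

set_option autoImplicit false

namespace Pool.Agent.Work.MP_bd4052_lc

namespace H30

open Classical

/-! ### creases -/

lemma P_affine {e : Con ℝ} (he : e.1 < 4) {a b : ℝ} (hab : a + b = 1) (t t' : ℝ) :
    P e (a * t + b * t') = a • P e t + b • P e t' := by
  obtain ⟨i, d⟩ := e
  simp only at he
  have hd : a * d + b * d = d := by rw [← add_mul, hab, one_mul]
  interval_cases i <;> ext <;> simp [P] <;> linarith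

lemma seg_P {e : Con ℝ} (he : e.1 < 4) (t t' : ℝ) :
    segment ℝ (P e t) (P e t') = P e '' Set.uIcc t t' := by
  rw [← segment_eq_uIcc]
  ext z
  constructor
  · rintro ⟨a, b, ha, hb, hab, rfl⟩
    exact ⟨a * t + b * t', ⟨a, b, ha, hb, hab, rfl⟩, P_affine he hab t t'⟩
  · rintro ⟨s, ⟨a, b, ha, hb, hab, rfl⟩, rfl⟩
    exact ⟨a, b, ha, hb, hab, (P_affine he hab t t').symm⟩

/-- the conditions on a crease -/
structure Good (r : Rec ℝ) (c : Cr ℝ) : Prop where
  ne : (c.1.1 : Pt) ≠ c.1.2
  memp : (c.1.1 : Pt) ∈ RS r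
  memq : (c.1.2 : Pt) ∈ RS r
  dir : c.1.1.1 = c.1.2.1 ∨ c.1.1.2 = c.1.2.2 ∨ c.1.2.1 - c.1.1.1 = c.1.2.2 - c.1.1.2 ∨
    c.1.2.1 - c.1.1.1 = c.1.1.2 - c.1.2.2

lemma good_line {r : Rec ℝ} {c : Cr ℝ} (h : Good r c) :
    (lineOf c).1 < 4 ∧ dotR (lineOf c).1 c.1.1 = (lineOf c).2 ∧
      dotR (lineOf c).1 c.1.2 = (lineOf c).2 := by
  obtain ⟨⟨⟨x, y⟩, ⟨x', y'⟩⟩, b⟩ := c
  have hdir := h.dir
  unfold lineOf
  simp only [nsub_real, add_real] at hdir ⊢
  by_cases h0 : x = x'
  · rw [(neqb_real x x').2 h0]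
    simp only [cond_true, dot0]
    exact ⟨by norm_num, trivial, h0.symm⟩
  · have e0 : neqb x x' = false := by
      rw [Bool.eq_false_iff]; exact fun hh => h0 ((neqb_real x x').1 hh)
    rw [e0]
    simp only [cond_false]
    by_cases h1 : y = y'
    · rw [(neqb_real y y').2 h1]
      simp only [cond_true, dot2]
      exact ⟨by norm_num, trivial, h1.symm⟩
    · have e1 : neqb y y' = false := by
        rw [Bool.eq_false_iff]; exact fun hh => h1 ((neqb_real y y').1 hh)
      rw [e1]
      simp only [cond_false]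
      by_cases h2 : x' - x = y' - y
      · rw [(neqb_real _ _).2 h2]
        simp only [cond_true, dot3]
        exact ⟨by norm_num, trivial, by linarith⟩
      · have e2 : neqb (x' - x) (y' - y) = false := by
          rw [Bool.eq_false_iff]; exact fun hh => h2 ((neqb_real _ _).1 hh)
        rw [e2]
        simp only [cond_false, dot1]
        refine ⟨by norm_num, trivial, ?_⟩
        rcases hdir with hh | hh | hh | hh
        · exact absurd hh h0
        · exact absurd hh h1
        · exact absurd hh h2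
        · linarith

/-- the coordinate of the low end -/
noncomputable def tlo (c : Cr ℝ) : ℝ := tcoord (lineOf c).1 (lowEnd c)

/-- the coordinate of the high end -/
noncomputable def thi (c : Cr ℝ) : ℝ := tcoord (lineOf c).1 (highEnd c)

lemma good_ends {r : Rec ℝ} {c : Cr ℝ} (h : Good r c) :
    tlo c < thi c ∧ lowEnd c = P (lineOf c) (tlo c) ∧ highEnd c = P (lineOf c) (thi c) ∧
      segment ℝ (c.1.1 : Pt) c.1.2 = P (lineOf c) '' Set.Icc (tlo c) (thi c) ∧
      P (lineOf c) (tlo c) ∈ RS r ∧ P (lineOf c) (thi c) ∈ RS r := by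
  obtain ⟨h1, h2, h3⟩ := good_line h
  set tp := tcoord (lineOf c).1 c.1.1 with htp
  set tq := tcoord (lineOf c).1 c.1.2 with htq
  have hp : P (lineOf c) tp = c.1.1 := P_tc h1 h2
  have hq : P (lineOf c) tq = c.1.2 := P_tc h1 h3
  have hne : tp ≠ tq := by
    intro hh
    apply h.ne
    rw [← hp, ← hq, hh]
  have hseg : segment ℝ (c.1.1 : Pt) c.1.2 = P (lineOf c) '' Set.uIcc tp tq := by
    conv_lhs => rw [← hp, ← hq]
    exact seg_P h1 tp tq
  rcases lt_or_gt_of_ne hne with hlt | hgt
  · have e1 : lowEnd c = c.1.1 := by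
      unfold lowEnd
      have : Num.lt (tcoord (lineOf c).1 c.1.1) (tcoord (lineOf c).1 c.1.2) = true := by
        rw [lt_real, decide_eq_true_iff]; exact hlt
      rw [this]; rfl
    have e2 : highEnd c = c.1.2 := by
      unfold highEnd
      have : Num.lt (tcoord (lineOf c).1 c.1.1) (tcoord (lineOf c).1 c.1.2) = true := by
        rw [lt_real, decide_eq_true_iff]; exact hlt
      rw [this]; rfl
    have e3 : tlo c = tp := by unfold tlo; rw [e1]
    have e4 : thi c = tq := by unfold thi; rw [e2]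
    rw [e3, e4, e1, e2, hp, hq]
    refine ⟨hlt, rfl, rfl, ?_, h.memp, h.memq⟩
    rw [hseg, Set.uIcc_of_le hlt.le]
  · have e1 : lowEnd c = c.1.2 := by
      unfold lowEnd
      have : Num.lt (tcoord (lineOf c).1 c.1.1) (tcoord (lineOf c).1 c.1.2) = false := by
        rw [lt_real, decide_eq_false_iff_not]; exact not_lt.2 hgt.le
      rw [this]; rfl
    have e2 : highEnd c = c.1.1 := by
      unfold highEnd
      have : Num.lt (tcoord (lineOf c).1 c.1.1) (tcoord (lineOf c).1 c.1.2) = false := by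
        rw [lt_real, decide_eq_false_iff_not]; exact not_lt.2 hgt.le
      rw [this]; rfl
    have e3 : tlo c = tq := by unfold tlo; rw [e1]
    have e4 : thi c = tp := by unfold thi; rw [e2]
    rw [e3, e4, e1, e2, hp, hq]
    refine ⟨hgt, rfl, rfl, ?_, h.memq, h.memp⟩
    rw [hseg, Set.uIcc_of_ge hgt.le]

lemma onBd_iff {r : Rec ℝ} {z : Pt} (hz : z ∈ RS r) : onBd r z = true ↔ z ∉ RI r := by
  obtain ⟨⟨x0, x1⟩, ⟨y0, y1⟩⟩ := r
  obtain ⟨x, y⟩ := z
  unfold RS at hz
  simp only [Set.mem_ofPred_eq] at hz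
  obtain ⟨h1, h2, h3, h4⟩ := hz
  unfold onBd RI
  simp only [Bool.or_eq_true, neqb_real, Set.mem_ofPred_eq]
  constructor
  · rintro (((h | h) | h) | h) ⟨a, b, c, d⟩ <;> linarith
  · intro h
    by_contra hcon
    push Not at hcon
    obtain ⟨⟨⟨a, b⟩, c⟩, d⟩ := hcon
    exact h ⟨lt_of_le_of_ne h1 (Ne.symm a), lt_of_le_of_ne h2 b, lt_of_le_of_ne h3 (Ne.symm c),
      lt_of_le_of_ne h4 d⟩

/-! ### the list of chords -/

/-- one step of the construction of the list of chords -/
noncomputable def cstep (acc : List (Cap ℝ)) (c : Cr ℝ) : List (Cap ℝ) :=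
  bif acc.any (fun e => leq e.1 (lineOf c)) then acc else acc ++ [(lineOf c, c.2)]

lemma cstep_any {acc : List (Cap ℝ)} {c : Cr ℝ} (h : ∃ e ∈ acc, e.1 = lineOf c) :
    cstep acc c = acc := by
  unfold cstep
  have : acc.any (fun e => leq e.1 (lineOf c)) = true := by
    rw [List.any_eq_true]
    obtain ⟨e, he, h1⟩ := h
    exact ⟨e, he, (leq_real _ _).2 h1⟩
  rw [this]; rfl

lemma cstep_new {acc : List (Cap ℝ)} {c : Cr ℝ} (h : ¬ ∃ e ∈ acc, e.1 = lineOf c) :
    cstep acc c = acc ++ [(lineOf c, c.2)] := by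
  unfold cstep
  have : acc.any (fun e => leq e.1 (lineOf c)) = false := by
    rw [Bool.eq_false_iff]
    intro h1
    rw [List.any_eq_true] at h1
    obtain ⟨e, he, h2⟩ := h1
    exact h ⟨e, he, (leq_real _ _).1 h2⟩
  rw [this]; rfl

lemma fold_spec (L : List (Cr ℝ)) : ∀ (acc : List (Cap ℝ)) (S : List (Cr ℝ)),
    (∀ f ∈ acc, ∃ c ∈ S, f = (lineOf c, c.2)) → acc.Pairwise (fun e f => e.1 ≠ f.1) →
    (∀ f ∈ L.foldl cstep acc, ∃ c ∈ S ++ L, f = (lineOf c, c.2)) ∧
    (L.foldl cstep acc).Pairwise (fun e f => e.1 ≠ f.1) ∧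
    (∀ f ∈ acc, f ∈ L.foldl cstep acc) ∧
    (∀ c ∈ L, ∃ f ∈ L.foldl cstep acc, f.1 = lineOf c) := by
  induction L with
  | nil =>
    intro acc S h1 h2
    refine ⟨?_, h2, fun f hf => hf, ?_⟩
    · intro f hf
      obtain ⟨c, hc, h3⟩ := h1 f hf
      exact ⟨c, by simpa using hc, h3⟩
    · intro c hc; simp at hc
  | cons c L ih =>
    intro acc S h1 h2
    rw [List.foldl_cons]
    by_cases hex : ∃ e ∈ acc, e.1 = lineOf c
    · rw [cstep_any hex]
      obtain ⟨a1, a2, a3, a4⟩ := ih acc S h1 h2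
      refine ⟨?_, a2, a3, ?_⟩
      · intro f hf
        obtain ⟨c', hc', h3⟩ := a1 f hf
        refine ⟨c', ?_, h3⟩
        simp only [List.mem_append, List.mem_cons] at hc' ⊢
        tauto
      · intro c' hc'
        rcases List.mem_cons.1 hc' with rfl | hc'
        · obtain ⟨e, he, h3⟩ := hex
          exact ⟨e, a3 e he, h3⟩
        · exact a4 c' hc'
    · rw [cstep_new hex]
      obtain ⟨a1, a2, a3, a4⟩ := ih (acc ++ [(lineOf c, c.2)]) (S ++ [c]) (by
        intro f hf
        rcases List.mem_append.1 hf with hf | hf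
        · obtain ⟨c', hc', h3⟩ := h1 f hf
          exact ⟨c', List.mem_append_left _ hc', h3⟩
        · rw [List.mem_singleton] at hf
          exact ⟨c, by simp, hf⟩) (by
        rw [List.pairwise_append]
        refine ⟨h2, by simp, ?_⟩
        intro e he f hf
        rw [List.mem_singleton] at hf
        subst hf
        intro h3
        exact hex ⟨e, he, h3⟩)
      refine ⟨?_, a2, ?_, ?_⟩
      · intro f hf
        obtain ⟨c', hc', h3⟩ := a1 f hf
        refine ⟨c', ?_, h3⟩
        simp only [List.mem_append, List.mem_cons] at hc' ⊢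
        tauto
      · intro f hf
        exact a3 f (List.mem_append_left _ hf)
      · intro c' hc'
        rcases List.mem_cons.1 hc' with rfl | hc'
        · exact ⟨(lineOf c', c'.2), a3 _ (by simp), rfl⟩
        · exact a4 c' hc'

lemma chords_spec (r : Rec ℝ) (L : List (Cr ℝ)) :
    (∀ f ∈ chords r L, ∃ c ∈ propCr r L, f = (lineOf c, c.2)) ∧
    (chords r L).Pairwise (fun e f => e.1 ≠ f.1) ∧
    (∀ c ∈ propCr r L, ∃ f ∈ chords r L, f.1 = lineOf c) := by
  have h : chords r L = (propCr r L).foldl cstep [] := rfl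
  obtain ⟨a1, a2, -, a4⟩ := fold_spec (propCr r L) [] [] (by simp) (by simp)
  rw [h]
  refine ⟨?_, a2, a4⟩
  intro f hf
  obtain ⟨c, hc, h3⟩ := a1 f hf
  exact ⟨c, by simpa using hc, h3⟩

/-! ### maps -/

lemma recR_RI (m : PaperMap) : RI (recR m) = m.inner := rfl

lemma recR_RS (m : PaperMap) : RS (recR m) = m.R := rfl

lemma recOK_of {m : PaperMap} (hm : m.Valid) : RecOK (recR m) := by
  unfold RecOK recR
  simp only
  exact ⟨by exact_mod_cast hm.1, by exact_mod_cast hm.2.1⟩

lemma mem_marked {m : PaperMap} {b : Bool} {z : Pt} :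
    z ∈ m.marked b ↔ ∃ c ∈ cresR m, c.2 = b ∧ z ∈ segment ℝ (c.1.1 : Pt) c.1.2 := by
  unfold PaperMap.marked cresR
  simp only [Set.mem_ofPred_eq, List.mem_map]
  constructor
  · rintro ⟨c, hc, h1, h2⟩
    exact ⟨crR c, ⟨c, hc, rfl⟩, h1, h2⟩
  · rintro ⟨_, ⟨c, hc, rfl⟩, h1, h2⟩
    exact ⟨c, hc, h1, h2⟩

lemma good_of {m : PaperMap} (hm : m.Valid) : ∀ c ∈ cresR m, Good (recR m) c := by
  intro c hc
  unfold cresR at hc
  rw [List.mem_map] at hc
  obtain ⟨c, hc, rfl⟩ := hc
  obtain ⟨h1, ⟨p1, p2, p3, p4⟩, ⟨q1, q2, q3, q4⟩, h4⟩ := hm.2.2 c hc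
  refine ⟨?_, ?_, ?_, ?_⟩
  · intro h
    apply h1
    unfold crR at h
    simp only [Prod.mk.injEq, Rat.cast_inj] at h
    exact Prod.ext h.1 h.2
  · unfold RS recR crR
    simp only [Set.mem_ofPred_eq, Rat.cast_le]
    exact ⟨p1, p2, p3, p4⟩
  · unfold RS recR crR
    simp only [Set.mem_ofPred_eq, Rat.cast_le]
    exact ⟨q1, q2, q3, q4⟩
  · unfold crR
    simp only
    rcases h4 with h | h | h | h
    · left; exact_mod_cast h
    · right; left; exact_mod_cast h
    · right; right; left; exact_mod_cast h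
    · right; right; right; exact_mod_cast h

end H30

open H30

theorem stmt_CHO (hG : Stmt_GEO2) : Stmt_CHO := by
  intro m hm
  have hr := recOK_of hm
  obtain ⟨hcp, -, -, -, -⟩ := hG (recR m) hr
  obtain ⟨a1, a2, -⟩ := chords_spec (recR m) (cresR m)
  have h4 : ∀ e ∈ chords (recR m) (cresR m), e.1.1 < 4 ∧ ProperS (recR m) e.1 := by
    intro e he
    obtain ⟨c, hc, rfl⟩ := a1 e he
    unfold propCr at hc
    rw [List.mem_filter] at hc
    have h1 := (good_line (good_of hm c hc.1)).1
    exact ⟨h1, (hcp _ (by simp only; omega)).1 hc.2⟩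
  refine ⟨h4, ?_⟩
  refine List.Pairwise.imp_of_mem ?_ a2
  intro e f he hf hne hs
  exact hne (sameL_small (h4 e he).1 (h4 f hf).1 hs)

namespace H30

open Classical

lemma pw_of {α : Type} {R : α → α → Prop} {l : List α} (h : l.Pairwise R) :
    ∀ x ∈ l, ∀ y ∈ l, x ≠ y → R x y ∨ R y x := by
  induction h with
  | nil => intro x hx; simp at hx
  | @cons a l hal _ ih =>
    intro x hx y hy hxy
    rcases List.mem_cons.1 hx with h1 | h1
    · rcases List.mem_cons.1 hy with h2 | h2
      · exact absurd (h1.trans h2.symm) hxy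
      · rw [h1]; exact Or.inl (hal y h2)
    · rcases List.mem_cons.1 hy with h2 | h2
      · rw [h2]; exact Or.inr (hal x h1)
      · exact ih x h1 y h2 hxy

/-- the parameters of points on other lines are finitely many -/
lemma finite_other {α : Type} (G : List α) (line : α → Con ℝ) (hG : ∀ e ∈ G, (line e).1 < 8)
    {f : Con ℝ} (hf : f.1 < 4) :
    {t | ∃ e ∈ G, ¬ SameL (line e) f ∧ dotR (line e).1 (P f t) = (line e).2}.Finite := by
  have : {t | ∃ e ∈ G, ¬ SameL (line e) f ∧ dotR (line e).1 (P f t) = (line e).2} =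
      ⋃ e ∈ {e | e ∈ G}, {t | ¬ SameL (line e) f ∧ dotR (line e).1 (P f t) = (line e).2} := by
    ext t; simp only [Set.mem_iUnion, Set.mem_ofPred_eq, exists_prop]
  rw [this]
  refine (List.finite_toSet G).biUnion ?_
  intro e he
  apply Set.Subsingleton.finite
  intro t ht t' ht'
  by_contra hne
  exact ht.1 (line_unique (hG e he) hf hne ht.2 ht'.2)

end H30

theorem stmt_CRE (hG2 : Stmt_GEO2) : Stmt_CRE := by
  classical
  intro m hm G hG hpw
  have hr := recOK_of hm
  obtain ⟨hcp, -, -, -, -⟩ := hG2 (recR m) hr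
  obtain ⟨a1, a2, a4⟩ := chords_spec (recR m) (cresR m)
  have hgood := good_of hm
  set r := recR m with hrdef
  set L := cresR m with hLdef
  -- proper creases
  have hprop : ∀ c, c ∈ propCr r L ↔ c ∈ L ∧ ProperS r (lineOf c) := by
    intro c
    unfold propCr
    rw [List.mem_filter]
    constructor
    · rintro ⟨h1, h2⟩
      exact ⟨h1, (hcp _ (by have := (good_line (hgood c h1)).1; omega)).1 h2⟩
    · rintro ⟨h1, h2⟩
      exact ⟨h1, (hcp _ (by have := (good_line (hgood c h1)).1; omega)).2 h2⟩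
  -- uniqueness in `G`
  have hGuniq : ∀ e ∈ G, ∀ e' ∈ G, ∀ f : Con ℝ, f.1 < 8 → SameL e.1 f → SameL e'.1 f → e = e' := by
    intro e he e' he' f hf h1 h2
    by_contra hne
    obtain ⟨f', hf', hs1, hs2⟩ := exists_small hf
    have hsame : SameL e.1 e'.1 := by
      have he8 := (hG e he).1
      have he8' := (hG e' he').1
      rcases h1 with h1 | h1 <;> rcases h2 with h2 | h2
      · left; rw [h1, h2]
      · right; rw [h1, h2, cneg_cneg hf]
      · right; rw [h1, h2]
      · left; rw [h1, h2]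
    have hsame' : SameL e'.1 e.1 := sameL_symm (hG e he).1 (hG e' he').1 hsame
    have hsym : ∀ x ∈ G, ∀ y ∈ G, x ≠ y → ¬ SameL x.1 y.1 ∨ ¬ SameL y.1 x.1 := by
      intro x hx y hy hxy
      exact pw_of hpw x hx y hy hxy
    rcases hsym e he e' he' hne with h | h
    · exact h hsame
    · exact h hsame'
  constructor
  · intro hM
    -- every proper crease is on a line of `G`
    have step1 : ∀ c ∈ propCr r L, ∃ e ∈ G, e.2 = c.2 ∧ SameL e.1 (lineOf c) := by
      intro c hc
      obtain ⟨hcL, hcp⟩ := (hprop c).1 hc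
      have hgc := hgood c hcL
      have hl4 := (good_line hgc).1
      obtain ⟨b1, b2, b3, b4, b5, b6⟩ := good_ends hgc
      obtain ⟨z, hz, hze⟩ := exists_mem_line hl4 hcp
      obtain ⟨τ₀, τ₁, hτ, hI, hS⟩ := exists_chord hl4 hz hze
      by_contra hcon
      push Not at hcon
      have hfin := finite_other G (fun e : Cap ℝ => e.1) (fun e he => (hG e he).1) hl4
      have hsub : Set.Ioo (tlo c) (thi c) ⊆
          {t | ∃ e ∈ G, ¬ SameL e.1 (lineOf c) ∧ dotR e.1.1 (P (lineOf c) t) = e.1.2} := by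
        intro t ht
        have h1 : P (lineOf c) t ∈ RI r := by
          rw [hI]
          have h2 := (hS _).1 b5
          have h3 := (hS _).1 b6
          exact ⟨lt_of_le_of_lt h2.1 ht.1, lt_of_lt_of_le ht.2 h3.2⟩
        have h2 : P (lineOf c) t ∈ m.marked c.2 := by
          rw [mem_marked]
          refine ⟨c, hcL, rfl, ?_⟩
          rw [b4]
          exact ⟨t, ⟨ht.1.le, ht.2.le⟩, rfl⟩
        obtain ⟨e, he, he2, hez⟩ := (hM c.2 _ h1).1 h2
        exact ⟨e, he, hcon e he he2, hez⟩
      exact (Set.Ioo_infinite b1) (hfin.subset hsub)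
    -- the creases cover the chords of `G`
    have step2 : ∀ e ∈ G, ∀ f : Con ℝ, f.1 < 4 → SameL e.1 f → ∀ τ₀ τ₁ : ℝ,
        (∀ t, P f t ∈ RI r ↔ τ₀ < t ∧ t < τ₁) → ∀ h, τ₀ ≤ h → h < τ₁ →
        ∃ c ∈ propCr r L, lineOf c = f ∧ c.2 = e.2 ∧ tlo c ≤ h ∧ h < thi c := by
      intro e he f hf hef τ₀ τ₁ hI h h0 h1
      have hfp : ProperS r f := sameL_proper (by omega) hef (hG e he).2
      have hfin := finite_other L (fun c => lineOf c)
        (fun c hc => by have := (good_line (hgood c hc)).1; omega) hf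
      obtain ⟨c, hc, hc1, hc2⟩ := cover_right
        ((propCr r L).filter fun c => decide (lineOf c = f ∧ c.2 = e.2)) tlo thi _ hfin h0 h1 (by
          intro t ht0 ht1 htX
          have hz : P f t ∈ RI r := (hI t).2 ⟨ht0, ht1⟩
          have h3 : P f t ∈ m.marked e.2 := by
            refine (hM e.2 _ hz).2 ⟨e, he, rfl, ?_⟩
            rw [sameL_line (by omega) hef]
            exact dot_P hf t
          rw [mem_marked] at h3
          obtain ⟨c, hcL, hc2, hcs⟩ := h3
          obtain ⟨b1, b2, b3, b4, b5, b6⟩ := good_ends (hgood c hcL)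
          have hl4 := (good_line (hgood c hcL)).1
          rw [b4] at hcs
          obtain ⟨s, hs, hs2⟩ := hcs
          have hon : dotR (lineOf c).1 (P f t) = (lineOf c).2 := by
            rw [← hs2]; exact dot_P hl4 s
          have hsl : lineOf c = f := by
            by_contra hne
            apply htX
            exact ⟨c, hcL, fun hh => hne (sameL_small hl4 hf hh), hon⟩
          have hst : s = t := by
            have h5 := tc_P hl4 s
            have h6 := tc_P hf t
            rw [hs2, hsl, h6] at h5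
            exact h5.symm
          refine ⟨c, ?_, ?_, ?_⟩
          · rw [List.mem_filter, decide_eq_true_iff]
            refine ⟨(hprop c).2 ⟨hcL, ?_⟩, hsl, hc2⟩
            rw [hsl]; exact hfp
          · rw [← hst]; exact hs.1
          · rw [← hst]; exact hs.2)
      rw [List.mem_filter, decide_eq_true_iff] at hc
      exact ⟨c, hc.1, hc.2.1, hc.2.2, hc1, hc2⟩
    have hlab : ∀ c ∈ propCr r L, ∀ c' ∈ propCr r L, lineOf c = lineOf c' → c.2 = c'.2 := by
      intro c hc c' hc' hl
      obtain ⟨e, he, he1, he2⟩ := step1 c hc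
      obtain ⟨e', he', he1', he2'⟩ := step1 c' hc'
      have hl4 := (good_line (hgood c ((hprop c).1 hc).1)).1
      rw [← hl] at he2'
      have := hGuniq e he e' he' (lineOf c) (by omega) he2 he2'
      rw [← he1, ← he1', this]
    refine ⟨?_, ?_, ?_⟩
    · -- creOK
      unfold creOK
      rw [List.all_eq_true]
      intro c hc
      obtain ⟨e, he, he1, he2⟩ := step1 c hc
      obtain ⟨hcL, hcp⟩ := (hprop c).1 hc
      have hgc := hgood c hcL
      have hl4 := (good_line hgc).1
      obtain ⟨z, hz, hze⟩ := exists_mem_line hl4 hcp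
      obtain ⟨τ₀, τ₁, hτ, hI, hS⟩ := exists_chord hl4 hz hze
      obtain ⟨b1, b2, b3, b4, b5, b6⟩ := good_ends hgc
      rw [Bool.and_eq_true, Bool.and_eq_true]
      refine ⟨⟨?_, ?_⟩, ?_⟩
      · rw [List.all_eq_true]
        intro c' hc'
        rw [Bool.or_eq_true]
        by_cases hl : lineOf c = lineOf c'
        · right
          rw [beq_iff_eq]
          exact hlab c hc c' hc' hl
        · left
          rw [Bool.not_eq_true', Bool.eq_false_iff]
          intro hh
          exact hl ((leq_real _ _).1 hh)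
      · rw [List.any_eq_true]
        obtain ⟨c', hc', hl', -, h1, h2⟩ := step2 e he (lineOf c) hl4 he2 τ₀ τ₁ hI τ₀ le_rfl hτ
        obtain ⟨d1, d2, d3, d4, d5, d6⟩ := good_ends (hgood c' ((hprop c').1 hc').1)
        refine ⟨c', hc', ?_⟩
        rw [Bool.and_eq_true, leq_real]
        refine ⟨hl'.symm, ?_⟩
        have h3 : lowEnd c' ∈ RS r := by rw [d2]; exact d5
        rw [onBd_iff h3, d2, hl', hI]
        rw [hl', hS] at d5
        intro h4
        linarith [h4.1]
      · rw [Bool.or_eq_true]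
        by_cases hτ1 : thi c < τ₁
        · right
          rw [List.any_eq_true]
          have h0 := (hS _).1 b6
          obtain ⟨c', hc', hl', -, h1, h2⟩ := step2 e he (lineOf c) hl4 he2 τ₀ τ₁ hI (thi c) h0.1 hτ1
          refine ⟨c', hc', ?_⟩
          rw [Bool.and_eq_true, Bool.and_eq_true, leq_real, Bool.not_eq_true', lt_real, lt_real,
            decide_eq_false_iff_not, decide_eq_true_iff, not_lt]
          refine ⟨⟨hl'.symm, ?_⟩, ?_⟩
          · have e1 : tcoord (lineOf c).1 (lowEnd c') = tlo c' := by unfold tlo; rw [hl']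
            rw [e1]; exact h1
          · have e1 : tcoord (lineOf c).1 (highEnd c') = thi c' := by unfold thi; rw [hl']
            rw [e1]; exact h2
        · left
          have h3 : highEnd c ∈ RS r := by rw [b3]; exact b6
          rw [onBd_iff h3, b3, hI]
          intro h4
          exact hτ1 h4.2
    · intro e he
      obtain ⟨f, hf4, hs1, hs2⟩ := exists_small (hG e he).1
      have hfp : ProperS r f := sameL_proper (by omega) hs1 (hG e he).2
      obtain ⟨z, hz, hze⟩ := exists_mem_line hf4 hfp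
      obtain ⟨τ₀, τ₁, hτ, hI, hS⟩ := exists_chord hf4 hz hze
      obtain ⟨c, hc, hl, hc2, -, -⟩ := step2 e he f hf4 hs1 τ₀ τ₁ hI τ₀ le_rfl hτ
      obtain ⟨g, hg, hg1⟩ := a4 c hc
      obtain ⟨c', hc', hg2⟩ := a1 g hg
      refine ⟨g, hg, ?_, ?_⟩
      · have h1 : lineOf c' = lineOf c := by rw [← hg1, hg2]
        rw [hg2]
        simp only
        rw [hlab c' hc' c hc h1, hc2]
      · rw [hg1, hl]; exact hs1
    · intro g hg
      obtain ⟨c, hc, rfl⟩ := a1 g hg
      obtain ⟨e, he, he1, he2⟩ := step1 c hc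
      exact ⟨e, he, he1.symm, he2⟩
  · rintro ⟨hcre, hb, hc⟩
    unfold creOK at hcre
    rw [List.all_eq_true] at hcre
    have hlab : ∀ c ∈ propCr r L, ∀ c' ∈ propCr r L, lineOf c = lineOf c' → c.2 = c'.2 := by
      intro c hc c' hc' hl
      have h1 := hcre c hc
      rw [Bool.and_eq_true, Bool.and_eq_true] at h1
      have h2 := h1.1.1
      rw [List.all_eq_true] at h2
      have h3 := h2 c' hc'
      rw [Bool.or_eq_true] at h3
      rcases h3 with h3 | h3
      · rw [(leq_real _ _).2 hl] at h3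
        simp at h3
      · rwa [beq_iff_eq] at h3
    intro b z hz
    constructor
    · intro hmk
      rw [mem_marked] at hmk
      obtain ⟨c, hcL, hc2, hcs⟩ := hmk
      have hgc := hgood c hcL
      have hl4 := (good_line hgc).1
      obtain ⟨b1, b2, b3, b4, b5, b6⟩ := good_ends hgc
      rw [b4] at hcs
      obtain ⟨s, hs, rfl⟩ := hcs
      have hp : ProperS r (lineOf c) := proper_of_mem hl4 hz (dot_P hl4 s)
      have hcP := (hprop c).2 ⟨hcL, hp⟩
      obtain ⟨g, hg, hg1⟩ := a4 c hcP
      obtain ⟨c', hc', hg2⟩ := a1 g hg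
      obtain ⟨e, he, he1, he2⟩ := hc g hg
      refine ⟨e, he, ?_, ?_⟩
      · have h1 : lineOf c' = lineOf c := by rw [← hg1, hg2]
        rw [← he1, hg2]
        simp only
        rw [hlab c' hc' c hcP h1, hc2]
      · rw [hg1] at he2
        rw [sameL_line (by omega) he2]
        exact dot_P hl4 s
    · rintro ⟨e, he, he2, hez⟩
      obtain ⟨g, hg, hg1, hg2⟩ := hb e he
      obtain ⟨c₀, hc₀, hg3⟩ := a1 g hg
      obtain ⟨hc₀L, hc₀p⟩ := (hprop c₀).1 hc₀
      have hl4 := (good_line (hgood c₀ hc₀L)).1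
      have hgl : g.1 = lineOf c₀ := by rw [hg3]
      rw [hgl] at hg2
      rw [sameL_line (by omega) hg2] at hez
      obtain ⟨τ₀, τ₁, hτ, hI, hS⟩ := exists_chord (r := r) hl4 hz hez
      set t := tcoord (lineOf c₀).1 z with ht
      have hzt : P (lineOf c₀) t = z := P_tc hl4 hez
      have htI := (hI t).1 (by rw [hzt]; exact hz)
      obtain ⟨c, hc, hc1, hc2⟩ := cover_of
        ((propCr r L).filter fun c => decide (lineOf c = lineOf c₀)) tlo thi htI.1.le htI.2 (by
          have h1 := hcre c₀ hc₀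
          rw [Bool.and_eq_true, Bool.and_eq_true] at h1
          have h2 := h1.1.2
          rw [List.any_eq_true] at h2
          obtain ⟨c', hc', h3⟩ := h2
          rw [Bool.and_eq_true, leq_real] at h3
          obtain ⟨d1, d2, d3, d4, d5, d6⟩ := good_ends (hgood c' ((hprop c').1 hc').1)
          refine ⟨c', ?_, ?_⟩
          · rw [List.mem_filter, decide_eq_true_iff]
            exact ⟨hc', h3.1.symm⟩
          · have h4 := h3.2
            have h5 : lowEnd c' ∈ RS r := by rw [d2]; exact d5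
            rw [onBd_iff h5, d2, ← h3.1, hI] at h4
            rw [← h3.1, hS] at d5 d6
            by_contra hne
            apply h4
            exact ⟨lt_of_le_of_ne d5.1 (Ne.symm hne), lt_of_lt_of_le d1 d6.2⟩) (by
          intro c hc hlt
          rw [List.mem_filter, decide_eq_true_iff] at hc
          obtain ⟨d1, d2, d3, d4, d5, d6⟩ := good_ends (hgood c ((hprop c).1 hc.1).1)
          have h1 := hcre c hc.1
          rw [Bool.and_eq_true, Bool.and_eq_true] at h1
          have h2 := h1.2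
          rw [Bool.or_eq_true] at h2
          rcases h2 with h2 | h2
          · exfalso
            have h5 : highEnd c ∈ RS r := by rw [d3]; exact d6
            rw [onBd_iff h5, d3, hc.2, hI] at h2
            rw [hc.2, hS] at d5
            exact h2 ⟨lt_of_le_of_lt d5.1 d1, hlt⟩
          · rw [List.any_eq_true] at h2
            obtain ⟨c', hc', h3⟩ := h2
            rw [Bool.and_eq_true, Bool.and_eq_true, leq_real, Bool.not_eq_true', lt_real, lt_real,
              decide_eq_false_iff_not, decide_eq_true_iff, not_lt] at h3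
            obtain ⟨⟨h4, h5⟩, h6⟩ := h3
            refine ⟨c', ?_, ?_, ?_⟩
            · rw [List.mem_filter, decide_eq_true_iff]
              exact ⟨hc', by rw [← h4]; exact hc.2⟩
            · have e1 : tcoord (lineOf c).1 (lowEnd c') = tlo c' := by unfold tlo; rw [h4]
              rw [e1] at h5; exact h5
            · have e1 : tcoord (lineOf c).1 (highEnd c') = thi c' := by unfold thi; rw [h4]
              rw [e1] at h6; exact h6)
      rw [List.mem_filter, decide_eq_true_iff] at hc
      obtain ⟨hcL, -⟩ := (hprop c).1 hc.1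
      obtain ⟨d1, d2, d3, d4, d5, d6⟩ := good_ends (hgood c hcL)
      rw [mem_marked]
      refine ⟨c, hcL, ?_, ?_⟩
      · rw [hlab c hc.1 c₀ hc₀ hc.2, ← he2, ← hg1, hg3]
      · rw [d4, hc.2]
        exact ⟨t, ⟨hc1, hc2⟩, hzt⟩

end Pool.Agent.Work.MP_bd4052_lc
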