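import Pool.Agent.Work.MP_bd4052_lc_helper30.Lines

/-!
# MP_bd4052_lc: block INT
-/

set_option autoImplicit false

namespace Pool.Agent.Work.MP_bd4052_lc

namespace H30

open Classical

lemma dot_continuous {i : ℕ} (hi : i < 8) : Continuous (dotR i) := by
  interval_cases i
  · have : dotR 0 = fun z : Pt => z.1 := funext dot0
    rw [this]; fun_prop
  · have : dotR 1 = fun z : Pt => z.1 + z.2 := funext dot1
    rw [this]; fun_prop
  · have : dotR 2 = fun z : Pt => z.2 := funext dot2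
    rw [this]; fun_prop
  · have : dotR 3 = fun z : Pt => z.2 - z.1 := funext dot3
    rw [this]; fun_prop
  · have : dotR 4 = fun z : Pt => -z.1 := funext dot4
    rw [this]; fun_prop
  · have : dotR 5 = fun z : Pt => -z.1 - z.2 := funext dot5
    rw [this]; fun_prop
  · have : dotR 6 = fun z : Pt => -z.2 := funext dot6
    rw [this]; fun_prop
  · have : dotR 7 = fun z : Pt => z.1 - z.2 := funext dot7
    rw [this]; fun_prop

/-- in every neighbourhood of a point the function `dotR i` takes larger values -/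
lemma dot_move {i : ℕ} (hi : i < 8) (z : Pt) {ε : ℝ} (hε : 0 < ε) :
    ∃ w : Pt, dist w z ≤ ε ∧ dotR i z < dotR i w := by
  have key : ∀ a b : ℝ, |a| ≤ ε → |b| ≤ ε → dist ((z.1 + a, z.2 + b) : Pt) z ≤ ε := by
    intro a b ha hb
    rw [Prod.dist_eq]
    refine max_le ?_ ?_
    · simp only [Real.dist_eq]
      rw [add_sub_cancel_left]; exact ha
    · simp only [Real.dist_eq]
      rw [add_sub_cancel_left]; exact hb
  have h0 : |(0 : ℝ)| ≤ ε := by rw [abs_zero]; exact hε.le
  have h1 : |ε| ≤ ε := by rw [abs_of_pos hε]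
  have h2 : |-ε| ≤ ε := by rw [abs_neg, abs_of_pos hε]
  interval_cases i
  · refine ⟨(z.1 + ε, z.2 + 0), key _ _ h1 h0, ?_⟩
    rw [dot0, dot0]; simp only; linarith
  · refine ⟨(z.1 + ε, z.2 + 0), key _ _ h1 h0, ?_⟩
    rw [dot1, dot1]; simp only; linarith
  · refine ⟨(z.1 + 0, z.2 + ε), key _ _ h0 h1, ?_⟩
    rw [dot2, dot2]; simp only; linarith
  · refine ⟨(z.1 + 0, z.2 + ε), key _ _ h0 h1, ?_⟩
    rw [dot3, dot3]; simp only; linarith
  · refine ⟨(z.1 + -ε, z.2 + 0), key _ _ h2 h0, ?_⟩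
    rw [dot4, dot4]; simp only; linarith
  · refine ⟨(z.1 + -ε, z.2 + 0), key _ _ h2 h0, ?_⟩
    rw [dot5, dot5]; simp only; linarith
  · refine ⟨(z.1 + 0, z.2 + -ε), key _ _ h0 h2, ?_⟩
    rw [dot6, dot6]; simp only; linarith
  · refine ⟨(z.1 + ε, z.2 + 0), key _ _ h1 h0, ?_⟩
    rw [dot7, dot7]; simp only; linarith

lemma interior_halfplane {i : ℕ} (hi : i < 8) {c : ℝ} {z : Pt} {T : Set Pt}
    (hT : ∀ w ∈ T, dotR i w ≤ c) (hz : z ∈ interior T) : dotR i z < c := by
  rw [mem_interior_iff_mem_nhds, Metric.mem_nhds_iff] at hz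
  obtain ⟨ε, hε, hb⟩ := hz
  obtain ⟨w, hw, hlt⟩ := dot_move hi z (half_pos hε)
  have h1 : w ∈ Metric.ball z ε := by
    rw [Metric.mem_ball]; linarith
  have h2 := hT w (hb h1)
  linarith

lemma interior_constraints (S : Set Pt) (G : List (Cap ℝ)) (hG : ∀ f ∈ G, f.1.1 < 8)
    (p : Cap ℝ → Prop) :
    interior {z | z ∈ S ∧ ∀ f ∈ G, p f → dotR f.1.1 z ≤ f.1.2} =
      {z | z ∈ interior S ∧ ∀ f ∈ G, p f → dotR f.1.1 z < f.1.2} := by
  apply Set.Subset.antisymm
  · intro z hz
    refine ⟨interior_mono (fun w hw => hw.1) hz, ?_⟩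
    intro f hf hp
    exact interior_halfplane (hG f hf) (fun w hw => hw.2 f hf hp) hz
  · apply interior_maximal
    · rintro z ⟨hz, h⟩
      exact ⟨interior_subset hz, fun f hf hp => (h f hf hp).le⟩
    · have e : {z | z ∈ interior S ∧ ∀ f ∈ G, p f → dotR f.1.1 z < f.1.2} =
          interior S ∩ ⋂ f ∈ {f | f ∈ G}, {z | p f → dotR f.1.1 z < f.1.2} := by
        ext z
        simp only [Set.mem_inter_iff, Set.mem_iInter, Set.mem_ofPred_eq]
      rw [e]
      apply isOpen_interior.inter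
      apply (List.finite_toSet G).isOpen_biInter
      intro f hf
      by_cases hp : p f
      · have e2 : {z | p f → dotR f.1.1 z < f.1.2} = dotR f.1.1 ⁻¹' Set.Iio f.1.2 := by
          ext z; simp [hp]
        rw [e2]
        exact isOpen_Iio.preimage (dot_continuous (hG f hf))
      · have e2 : {z : Pt | p f → dotR f.1.1 z < f.1.2} = Set.univ := by
          ext z; simp [hp]
        rw [e2]
        exact isOpen_univ

lemma interior_RS {r : Rec ℝ} : interior (RS r) = RI r := by
  have e : RS r = Set.Icc r.1.1 r.1.2 ×ˢ Set.Icc r.2.1 r.2.2 := by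
    ext z
    simp only [RS, Set.mem_ofPred_eq, Set.mem_prod, Set.mem_Icc]
    tauto
  rw [e, interior_prod_eq, interior_Icc, interior_Icc]
  ext z
  simp only [RI, Set.mem_ofPred_eq, Set.mem_prod, Set.mem_Ioo]
  tauto

lemma sol_rectC {r : Rec ℝ} : sol (rectC r) = RI r := by
  obtain ⟨⟨x0, x1⟩, ⟨y0, y1⟩⟩ := r
  ext ⟨x, y⟩
  simp only [sol, rectC, RI, Set.mem_ofPred_eq, List.forall_mem_cons, List.not_mem_nil,
    false_imp_iff, implies_true, and_true, dot0, dot1, dot2, dot3, dot4, dot5, dot6, dot7,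
    nsub_real, add_real, neg_real]
  constructor
  · rintro ⟨a, b, c, d, e, f, g, h⟩
    refine ⟨?_, ?_, ?_, ?_⟩ <;> linarith
  · rintro ⟨a, b, c, d⟩
    refine ⟨?_, ?_, ?_, ?_, ?_, ?_, ?_, ?_⟩ <;> linarith

lemma sol_cons (c : Con ℝ) (L : List (Con ℝ)) :
    sol (c :: L) = {z | dotR c.1 z < c.2 ∧ z ∈ sol L} := by
  ext z
  simp only [sol, Set.mem_ofPred_eq, List.forall_mem_cons]

end H30

open H30

theorem stmt_INT : Stmt_INT := by
  classical
  intro r _ G hG
  refine ⟨?_, ?_⟩
  · have h := interior_constraints (RS r) G hG (fun _ => True)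
    have e1 : piece r G none = {z | z ∈ RS r ∧ ∀ f ∈ G, True → dotR f.1.1 z ≤ f.1.2} := by
      ext z; simp [piece]
    rw [e1, h, interior_RS]
    ext z
    have e2 : z ∈ sol (rectC r) ↔ z ∈ RI r := by rw [sol_rectC]
    simp only [Set.mem_ofPred_eq, forall_const]
    constructor
    · rintro ⟨h1, h2⟩ c hc
      rcases List.mem_append.1 hc with hc | hc
      · exact (e2.2 h1) c hc
      · obtain ⟨f, hf, rfl⟩ := List.mem_map.1 hc
        exact h2 f hf
    · intro h1
      refine ⟨e2.1 fun c hc => h1 c (List.mem_append_left _ hc), fun f hf => ?_⟩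
      exact h1 f.1 (List.mem_append_right _ (List.mem_map.2 ⟨f, hf, rfl⟩))
  · intro e he
    -- the half-plane of `e` as a constraint
    have hcn : ∀ z, dotR (cneg e.1).1 z < (cneg e.1).2 ↔ e.1.2 < dotR e.1.1 z := by
      intro z
      obtain ⟨h1, h2, -⟩ := cneg_dot he z
      rw [h1, h2]
      constructor <;> intro h <;> linarith
    have hcn' : ∀ z, dotR (cneg e.1).1 z ≤ (cneg e.1).2 ↔ e.1.2 ≤ dotR e.1.1 z := by
      intro z
      obtain ⟨h1, h2, -⟩ := cneg_dot he z
      rw [h1, h2]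
      constructor <;> intro h <;> linarith
    have hc8 : (cneg e.1).1 < 8 := (cneg_dot he 0).2.2
    have hcap : interior (capC r e) = {z | z ∈ RI r ∧ e.1.2 < dotR e.1.1 z} := by
      have h := interior_constraints (RS r) [(cneg e.1, false)] (by
        intro f hf
        rw [List.mem_singleton] at hf
        subst hf
        exact hc8) (fun _ => True)
      simp only [List.mem_singleton, forall_eq, forall_const, hcn, hcn', interior_RS] at h
      exact h
    refine ⟨?_, ?_⟩
    · rw [hcap, sol_cons, sol_rectC]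
      ext z
      simp only [Set.mem_ofPred_eq, hcn]
      tauto
    · have h := interior_constraints (capC r e) G hG (fun f => SubS r f.1 e.1 ∧ f ≠ e)
      have e1 : piece r G (some e) =
          {z | z ∈ capC r e ∧ ∀ f ∈ G, (SubS r f.1 e.1 ∧ f ≠ e) → dotR f.1.1 z ≤ f.1.2} := by
        ext z
        simp only [piece, capC, Set.mem_ofPred_eq]
        constructor
        · rintro ⟨a, b, c⟩
          exact ⟨⟨a, b⟩, fun f hf hh => c f hf hh.1 hh.2⟩
        · rintro ⟨⟨a, b⟩, c⟩
          exact ⟨a, b, fun f hf h1 h2 => c f hf ⟨h1, h2⟩⟩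
      rw [e1, h, hcap]
      ext z
      simp only [Set.mem_ofPred_eq]
      constructor
      · rintro ⟨⟨a, b⟩, c⟩
        exact ⟨a, b, fun f hf h1 h2 => c f hf ⟨h1, h2⟩⟩
      · rintro ⟨a, b, c⟩
        exact ⟨⟨a, b⟩, fun f hf hh => c f hf hh.1 hh.2⟩

end Pool.Agent.Work.MP_bd4052_lc
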