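import Pool.Agent.Work.MP_bd4052_lc.Interface

/-!
# MP_bd4052_lc: lines, parametrisation, intervals (for CRE, CHO)
-/

set_option autoImplicit false

namespace Pool.Agent.Work.MP_bd4052_lc

namespace H30

open Classical

@[simp] lemma add_real (x y : ℝ) : Num.add x y = x + y := rfl
@[simp] lemma neg_real (x : ℝ) : Num.neg x = -x := rfl
@[simp] lemma zero_real : (Num.zero : ℝ) = 0 := rfl
@[simp] lemma lt_real (x y : ℝ) : Num.lt x y = decide (x < y) := rfl

lemma nsub_real (x y : ℝ) : nsub x y = x - y := by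
  unfold nsub; simp [sub_eq_add_neg]

lemma neqb_real (x y : ℝ) : neqb x y = true ↔ x = y := by
  unfold neqb
  simp only [lt_real, Bool.and_eq_true, Bool.not_eq_true', decide_eq_false_iff_not, not_lt]
  constructor
  · rintro ⟨h1, h2⟩; exact le_antisymm h2 h1
  · rintro rfl; exact ⟨le_rfl, le_rfl⟩

lemma leq_real (e f : Con ℝ) : leq e f = true ↔ e = f := by
  unfold leq
  rw [Bool.and_eq_true, decide_eq_true_iff, neqb_real, Prod.ext_iff]

lemma dot0 (z : Pt) : dotR 0 z = z.1 := by simp [dotR, ndot]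
lemma dot1 (z : Pt) : dotR 1 z = z.1 + z.2 := by simp [dotR, ndot]
lemma dot2 (z : Pt) : dotR 2 z = z.2 := by simp [dotR, ndot]
lemma dot3 (z : Pt) : dotR 3 z = z.2 - z.1 := by simp [dotR, ndot, nsub_real]
lemma dot4 (z : Pt) : dotR 4 z = -z.1 := by simp [dotR, ndot]
lemma dot5 (z : Pt) : dotR 5 z = -z.1 - z.2 := by simp [dotR, ndot, nsub_real]
lemma dot6 (z : Pt) : dotR 6 z = -z.2 := by simp [dotR, ndot]
lemma dot7 (z : Pt) : dotR 7 z = z.1 - z.2 := by simp [dotR, ndot, nsub_real]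

/-- the point with the coordinate `t` on the line `(i, d)`, `i < 4` -/
noncomputable def P (e : Con ℝ) (t : ℝ) : Pt :=
  if e.1 = 0 then (e.2, t) else if e.1 = 1 then (t, e.2 - t) else if e.1 = 2 then (t, e.2)
  else (t, t + e.2)

lemma dot_P {e : Con ℝ} (he : e.1 < 4) (t : ℝ) : dotR e.1 (P e t) = e.2 := by
  obtain ⟨i, d⟩ := e
  simp only at he
  interval_cases i <;> simp [P, dot0, dot1, dot2, dot3]

lemma tc_P {e : Con ℝ} (he : e.1 < 4) (t : ℝ) : tcoord e.1 (P e t) = t := by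
  obtain ⟨i, d⟩ := e
  simp only at he
  interval_cases i <;> simp [P, tcoord]

lemma P_tc {e : Con ℝ} (he : e.1 < 4) {z : Pt} (hz : dotR e.1 z = e.2) :
    P e (tcoord e.1 z) = z := by
  obtain ⟨i, d⟩ := e
  obtain ⟨x, y⟩ := z
  simp only at he hz
  interval_cases i
  · rw [dot0] at hz; simp only at hz; subst hz; simp [P, tcoord]
  · rw [dot1] at hz; simp only at hz; subst hz; simp [P, tcoord]
  · rw [dot2] at hz; simp only at hz; subst hz; simp [P, tcoord]
  · rw [dot3] at hz; simp only at hz; subst hz; simp [P, tcoord]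

/-- the opposite cap has the same line -/
lemma cneg_dot {e : Con ℝ} (he : e.1 < 8) (z : Pt) :
    dotR (cneg e).1 z = -dotR e.1 z ∧ (cneg e).2 = -e.2 ∧ (cneg e).1 < 8 := by
  obtain ⟨i, d⟩ := e
  simp only at he
  refine ⟨?_, rfl, ?_⟩
  · interval_cases i <;> simp [cneg, dot0, dot1, dot2, dot3, dot4, dot5, dot6, dot7] <;> ring
  · unfold cneg; simp only; omega

lemma sameL_line {e f : Con ℝ} (hf : f.1 < 8) (h : SameL e f) (z : Pt) :
    dotR e.1 z = e.2 ↔ dotR f.1 z = f.2 := by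
  rcases h with rfl | rfl
  · rfl
  · obtain ⟨h1, h2, -⟩ := cneg_dot hf z
    rw [h1, h2]
    constructor
    · intro h; linarith
    · intro h; linarith

lemma cneg_cneg {e : Con ℝ} (he : e.1 < 8) : cneg (cneg e) = e := by
  obtain ⟨i, d⟩ := e
  simp only at he
  unfold cneg
  simp only [neg_real, neg_neg, Prod.mk.injEq, and_true]
  omega

lemma sameL_symm {e f : Con ℝ} (he : e.1 < 8) (hf : f.1 < 8) (h : SameL e f) : SameL f e := by
  rcases h with rfl | rfl
  · exact Or.inl rfl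
  · exact Or.inr (cneg_cneg hf).symm

lemma sameL_proper {r : Rec ℝ} {e f : Con ℝ} (hf : f.1 < 8) (h : SameL e f)
    (hp : ProperS r e) : ProperS r f := by
  rcases h with rfl | rfl
  · exact hp
  · obtain ⟨⟨z, hz, h1⟩, ⟨w, hw, h2⟩⟩ := hp
    obtain ⟨a1, a2, -⟩ := cneg_dot hf z
    obtain ⟨b1, b2, -⟩ := cneg_dot hf w
    rw [a1, a2] at h1
    rw [b1, b2] at h2
    exact ⟨⟨w, hw, by linarith⟩, ⟨z, hz, by linarith⟩⟩

/-- every line is the line of a constraint with direction `< 4` -/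
lemma exists_small {e : Con ℝ} (he : e.1 < 8) : ∃ f : Con ℝ, f.1 < 4 ∧ SameL e f ∧ SameL f e := by
  by_cases h : e.1 < 4
  · exact ⟨e, h, Or.inl rfl, Or.inl rfl⟩
  · refine ⟨cneg e, ?_, Or.inr (cneg_cneg he).symm, Or.inr rfl⟩
    unfold cneg
    simp only
    omega

lemma sameL_small {e f : Con ℝ} (he : e.1 < 4) (hf : f.1 < 4) (h : SameL e f) : e = f := by
  rcases h with h | h
  · exact h
  · exfalso
    rw [h] at he
    unfold cneg at he
    simp only at he
    omega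

/-- two different lines meet at most once -/
lemma small_unique {e f : Con ℝ} (he : e.1 < 4) (hf : f.1 < 4) {t t' : ℝ} (ht : t ≠ t')
    (h1 : dotR e.1 (P f t) = e.2) (h2 : dotR e.1 (P f t') = e.2) : e = f := by
  obtain ⟨i, d⟩ := e
  obtain ⟨j, c⟩ := f
  simp only at he hf h1 h2
  have key : t - t' ≠ 0 := sub_ne_zero.2 ht
  interval_cases i <;> interval_cases j <;>
    simp [P, dot0, dot1, dot2, dot3] at h1 h2 <;>
    first
    | (exfalso; apply key; linarith)
    | (congr 1; linarith)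

lemma line_unique {e f : Con ℝ} (he : e.1 < 8) (hf : f.1 < 4) {t t' : ℝ} (ht : t ≠ t')
    (h1 : dotR e.1 (P f t) = e.2) (h2 : dotR e.1 (P f t') = e.2) : SameL e f := by
  obtain ⟨e', he', hs, hs'⟩ := exists_small he
  have he8 : e'.1 < 8 := by omega
  rw [sameL_line he8 hs] at h1 h2
  have := small_unique he' hf ht h1 h2
  rw [← this]
  exact hs

/-- the chord of a line which meets the open rectangle -/
lemma exists_chord {r : Rec ℝ} {e : Con ℝ} (he : e.1 < 4) {z : Pt} (hz : z ∈ RI r)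
    (hze : dotR e.1 z = e.2) :
    ∃ τ₀ τ₁ : ℝ, τ₀ < τ₁ ∧ (∀ t, P e t ∈ RI r ↔ τ₀ < t ∧ t < τ₁) ∧
      (∀ t, P e t ∈ RS r ↔ τ₀ ≤ t ∧ t ≤ τ₁) := by
  rw [← P_tc he hze] at hz
  set s := tcoord e.1 z
  clear_value s
  obtain ⟨i, d⟩ := e
  obtain ⟨⟨x0, x1⟩, ⟨y0, y1⟩⟩ := r
  simp only at he
  unfold RI at hz
  interval_cases i
  · simp only [P, if_true, Set.mem_ofPred_eq] at hz
    refine ⟨y0, y1, hz.2.2.1.trans hz.2.2.2, ?_, ?_⟩
    · intro t
      simp only [P, if_true, RI, Set.mem_ofPred_eq]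
      tauto
    · intro t
      simp only [P, if_true, RS, Set.mem_ofPred_eq]
      have := hz.1.le
      have := hz.2.1.le
      tauto
  · simp [P] at hz
    refine ⟨max x0 (d - y1), min x1 (d - y0), ?_, ?_, ?_⟩
    · refine max_lt (lt_min ?_ ?_) (lt_min ?_ ?_) <;> linarith [hz.1, hz.2.1, hz.2.2.1, hz.2.2.2]
    · intro t
      simp [P, RI]
      constructor
      · rintro ⟨a, b, c, f⟩
        refine ⟨⟨a, ?_⟩, b, ?_⟩ <;> linarith
      · rintro ⟨⟨a, b⟩, c, f⟩
        refine ⟨a, c, ?_, ?_⟩ <;> linarith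
    · intro t
      simp [P, RS]
      constructor
      · rintro ⟨a, b, c, f⟩
        refine ⟨⟨a, ?_⟩, b, ?_⟩ <;> linarith
      · rintro ⟨⟨a, b⟩, c, f⟩
        refine ⟨a, c, ?_, ?_⟩ <;> linarith
  · simp [P] at hz
    refine ⟨x0, x1, hz.1.trans hz.2.1, ?_, ?_⟩
    · intro t
      simp [P, RI]
      have := hz.2.2
      tauto
    · intro t
      simp [P, RS]
      have h1 := hz.2.2.1.le
      have h2 := hz.2.2.2.le
      tauto
  · simp [P] at hz
    refine ⟨max x0 (y0 - d), min x1 (y1 - d), ?_, ?_, ?_⟩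
    · refine max_lt (lt_min ?_ ?_) (lt_min ?_ ?_) <;> linarith [hz.1, hz.2.1, hz.2.2.1, hz.2.2.2]
    · intro t
      simp [P, RI]
      constructor
      · rintro ⟨a, b, c, f⟩
        refine ⟨⟨a, ?_⟩, b, ?_⟩ <;> linarith
      · rintro ⟨⟨a, b⟩, c, f⟩
        refine ⟨a, c, ?_, ?_⟩ <;> linarith
    · intro t
      simp [P, RS]
      constructor
      · rintro ⟨a, b, c, f⟩
        refine ⟨⟨a, ?_⟩, b, ?_⟩ <;> linarith
      · rintro ⟨⟨a, b⟩, c, f⟩
        refine ⟨a, c, ?_, ?_⟩ <;> linarith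

/-- a line through an inner point is proper -/
lemma proper_of_mem {r : Rec ℝ} {e : Con ℝ} (he : e.1 < 4) {z : Pt} (hz : z ∈ RI r)
    (hze : dotR e.1 z = e.2) : ProperS r e := by
  obtain ⟨i, d⟩ := e
  obtain ⟨⟨x0, x1⟩, ⟨y0, y1⟩⟩ := r
  obtain ⟨x, y⟩ := z
  simp only at he hze
  unfold RI at hz
  simp only [Set.mem_ofPred_eq] at hz
  obtain ⟨h1, h2, h3, h4⟩ := hz
  -- small moves
  have hx : ∀ i : ℕ, (i = 0 ∨ i = 1) → ∃ z ∈ RI ((x0, x1), (y0, y1)), dotR i (x, y) < dotR i z := by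
    intro i hi
    refine ⟨((x + x1) / 2, y), ⟨by simp only; linarith, by simp only; linarith, h3, h4⟩, ?_⟩
    rcases hi with rfl | rfl
    · rw [dot0, dot0]; simp only; linarith
    · rw [dot1, dot1]; simp only; linarith
  have hx' : ∀ i : ℕ, (i = 0 ∨ i = 1) → ∃ z ∈ RI ((x0, x1), (y0, y1)), dotR i z < dotR i (x, y) := by
    intro i hi
    refine ⟨((x + x0) / 2, y), ⟨by simp only; linarith, by simp only; linarith, h3, h4⟩, ?_⟩
    rcases hi with rfl | rfl
    · rw [dot0, dot0]; simp only; linarith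
    · rw [dot1, dot1]; simp only; linarith
  have hy : ∀ i : ℕ, (i = 2 ∨ i = 3) → ∃ z ∈ RI ((x0, x1), (y0, y1)), dotR i (x, y) < dotR i z := by
    intro i hi
    refine ⟨(x, (y + y1) / 2), ⟨h1, h2, by simp only; linarith, by simp only; linarith⟩, ?_⟩
    rcases hi with rfl | rfl
    · rw [dot2, dot2]; simp only; linarith
    · rw [dot3, dot3]; simp only; linarith
  have hy' : ∀ i : ℕ, (i = 2 ∨ i = 3) → ∃ z ∈ RI ((x0, x1), (y0, y1)), dotR i z < dotR i (x, y) := by
    intro i hi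
    refine ⟨(x, (y + y0) / 2), ⟨h1, h2, by simp only; linarith, by simp only; linarith⟩, ?_⟩
    rcases hi with rfl | rfl
    · rw [dot2, dot2]; simp only; linarith
    · rw [dot3, dot3]; simp only; linarith
  have hi : (i = 0 ∨ i = 1) ∨ (i = 2 ∨ i = 3) := by omega
  unfold ProperS
  simp only
  rw [← hze]
  rcases hi with hi | hi
  · exact ⟨hx i hi, hx' i hi⟩
  · exact ⟨hy i hi, hy' i hi⟩

/-- a proper line meets the open rectangle -/
lemma exists_mem_line {r : Rec ℝ} {e : Con ℝ} (he : e.1 < 4) (hp : ProperS r e) :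
    ∃ z ∈ RI r, dotR e.1 z = e.2 := by
  obtain ⟨⟨⟨x, y⟩, hz, h1⟩, ⟨⟨x', y'⟩, hw, h2⟩⟩ := hp
  obtain ⟨i, d⟩ := e
  obtain ⟨⟨x0, x1⟩, ⟨y0, y1⟩⟩ := r
  simp only at he h1 h2
  unfold RI at hz hw
  simp only [Set.mem_ofPred_eq] at hz hw
  obtain ⟨a1, a2, a3, a4⟩ := hz
  obtain ⟨b1, b2, b3, b4⟩ := hw
  -- the convex combination
  have key : ∀ A B : ℝ, d < A → B < d → ∃ s : ℝ, 0 < s ∧ s < 1 ∧ s * A + (1 - s) * B = d := by
    intro A B hA hB
    have hAB : 0 < A - B := by linarith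
    refine ⟨(d - B) / (A - B), div_pos (by linarith) hAB, ?_, ?_⟩
    · rw [div_lt_one hAB]; linarith
    · field_simp; ring
  obtain ⟨s, hs0, hs1, hs⟩ := key _ _ h1 h2
  have hs1' : 0 < 1 - s := by linarith
  refine ⟨(s * x + (1 - s) * x', s * y + (1 - s) * y'), ?_, ?_⟩
  · refine ⟨?_, ?_, ?_, ?_⟩ <;> simp only <;> nlinarith
  · simp only
    rw [← hs]
    interval_cases i
    · rw [dot0, dot0, dot0]
    · rw [dot1, dot1, dot1]; simp only; ring
    · rw [dot2, dot2, dot2]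
    · rw [dot3, dot3, dot3]; simp only; ring

/-! ### intervals -/

/-- If finitely many intervals cover all but finitely many points of `(τ₀, τ₁)`, then every point
`h ∈ [τ₀, τ₁)` is in the half-open interval of one of them. -/
lemma cover_right {α : Type} (L : List α) (lo hi : α → ℝ) (X : Set ℝ) (hX : X.Finite)
    {τ₀ τ₁ h : ℝ} (h0 : τ₀ ≤ h) (h1 : h < τ₁)
    (hc : ∀ t, τ₀ < t → t < τ₁ → t ∉ X → ∃ j ∈ L, lo j ≤ t ∧ t ≤ hi j) :
    ∃ j ∈ L, lo j ≤ h ∧ h < hi j := by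
  by_contra hcon
  push Not at hcon
  have e1 : ∀ᶠ t in nhdsWithin h (Set.Ioi h), h < t := self_mem_nhdsWithin
  have e2 : ∀ᶠ t in nhdsWithin h (Set.Ioi h), t < τ₁ :=
    mem_nhdsWithin_of_mem_nhds (Iio_mem_nhds h1)
  have e3 : ∀ᶠ t in nhdsWithin h (Set.Ioi h), t ∉ X := by
    have h3 : ∀ᶠ t in nhdsWithin h (Set.Ioi h), t ∉ X \ {h} := by
      apply mem_nhdsWithin_of_mem_nhds
      apply (hX.subset Set.sdiff_subset).isClosed.isOpen_compl.mem_nhds
      simp
    filter_upwards [e1, h3] with t ht ht' hX'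
    exact ht' ⟨hX', by simp only [Set.mem_singleton_iff]; exact ht.ne'⟩
  have e4 : ∀ᶠ t in nhdsWithin h (Set.Ioi h), ∀ j ∈ L, ¬ (lo j ≤ t ∧ t ≤ hi j) := by
    have : ∀ L' : List α, (∀ j ∈ L', j ∈ L) →
        ∀ᶠ t in nhdsWithin h (Set.Ioi h), ∀ j ∈ L', ¬ (lo j ≤ t ∧ t ≤ hi j) := by
      intro L'
      induction L' with
      | nil => intro _; simp
      | cons j L' ih =>
        intro hL'
        have h5 := ih (fun k hk => hL' k (List.mem_cons_of_mem _ hk))
        have h6 : ∀ᶠ t in nhdsWithin h (Set.Ioi h), ¬ (lo j ≤ t ∧ t ≤ hi j) := by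
          by_cases h7 : lo j ≤ h
          · have h8 := hcon j (hL' j (List.mem_cons_self ..)) h7
            filter_upwards [e1] with t ht hh
            linarith [hh.2]
          · push Not at h7
            have h9 : ∀ᶠ t in nhdsWithin h (Set.Ioi h), t < lo j :=
              mem_nhdsWithin_of_mem_nhds (Iio_mem_nhds h7)
            filter_upwards [h9] with t ht hh
            linarith [hh.1]
        filter_upwards [h5, h6] with t ht ht' k hk
        rcases List.mem_cons.1 hk with rfl | hk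
        · exact ht'
        · exact ht k hk
    exact this L fun _ h => h
  obtain ⟨t, ht1, ht2, ht3, ht4⟩ := (e1.and (e2.and (e3.and e4))).exists
  obtain ⟨j, hj, hh⟩ := hc t (lt_of_le_of_lt h0 ht1) ht2 ht3
  exact ht4 j hj hh

/-- Conversely the conditions of the algorithm imply that the intervals cover. -/
lemma cover_of {α : Type} (L : List α) (lo hi : α → ℝ) {τ₀ τ₁ t : ℝ} (h0 : τ₀ ≤ t) (h1 : t < τ₁)
    (ha : ∃ j ∈ L, lo j = τ₀)
    (hb : ∀ j ∈ L, hi j < τ₁ → ∃ k ∈ L, lo k ≤ hi j ∧ hi j < hi k) :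
    ∃ j ∈ L, lo j ≤ t ∧ t ≤ hi j := by
  by_contra hcon
  push Not at hcon
  -- the interval with `lo ≤ t` and largest `hi`
  set S : Finset α := L.toFinset.filter fun j => lo j ≤ t with hS
  have hSne : S.Nonempty := by
    obtain ⟨j, hj, hj0⟩ := ha
    exact ⟨j, by rw [hS, Finset.mem_filter, List.mem_toFinset]; exact ⟨hj, by rw [hj0]; exact h0⟩⟩
  obtain ⟨j, hj, hmax⟩ := S.exists_max_image hi hSne
  rw [hS, Finset.mem_filter, List.mem_toFinset] at hj
  have h2 := hcon j hj.1 hj.2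
  obtain ⟨k, hk, hk1, hk2⟩ := hb j hj.1 (h2.trans h1)
  have h3 : k ∈ S := by
    rw [hS, Finset.mem_filter, List.mem_toFinset]
    exact ⟨hk, by linarith⟩
  have := hmax k h3
  linarith

end H30

end Pool.Agent.Work.MP_bd4052_lc
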